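import Pool.Agent.H62.KO.Main

/-!
# The modified machine is close to the given one; approximation for the given machine
-/

set_option autoImplicit false

namespace Pool.Agent.H62.KO

variable (M : OM)

theorem kap_le_logb (n : ℕ) : (kap n : ℝ) ≤ 2 * Real.logb 2 (n + 2) + 5 := by
  have h := Real.natLog_le_logb (n + 2) 2
  rw [kap]
  push_cast at h ⊢
  linarith

theorem close (B : List Bool → Bool) (x : List Bool) (r : ℝ) (h : KtLt M B x r) :
    KtLt (slow M) B x (r + 2 * Real.logb 2 (x.length + 2) + 8) := by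
  obtain ⟨e, t, h1, h2⟩ := h
  have ht : 0 < t := by have := h1.pos; omega
  refine ⟨false :: e, 2 ^ (kap x.length + 2) * t, (run_zero M B e _ x).2 ⟨t, h1, le_rfl⟩, ?_⟩
  have h3 := kap_le_logb x.length
  rw [List.length_cons, Nat.cast_mul, Nat.cast_pow, Real.logb_mul (by positivity) (by positivity),
    Real.logb_pow, Nat.cast_ofNat, Real.logb_self_eq_one (by norm_num)]
  push_cast
  linarith

theorem logb_ge_one (n : ℕ) : (1 : ℝ) ≤ Real.logb 2 (n + 2) := by
  rw [Real.le_logb_iff_rpow_le (by norm_num) (by positivity), Real.rpow_one]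
  linarith [(Nat.cast_nonneg n : (0 : ℝ) ≤ n)]

theorem upper {c : List Bool} {k r : ℕ} (hsim : Simulates M c k r)
    (A : List Bool → Bool) (x : List Bool) (th : ℕ) (hth : th ≤ x.length + 3 + kap x.length)
    (h : KLt (slow M) A x th) :
    KtLt M A x (th + (c.length + k + 4 * (r + 1)) * Real.logb 2 (x.length + 2)) := by
  obtain ⟨e, t, h1, h2⟩ := h
  have ht : 0 < t := by have := h1.pos; omega
  have h3 := hsim A e t x h1
  set T := k * (t + e.length + 1) * (Nat.log 2 (t + e.length + 1) + 1) ^ r with hT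
  have hT0 : 0 < T := by have := h3.pos; omega
  have hk : 0 < k := by
    rcases Nat.eq_zero_or_pos k with h0 | h0
    · rw [hT, h0, Nat.zero_mul, Nat.zero_mul] at hT0
      exact absurd hT0 (lt_irrefl _)
    · exact h0
  refine ⟨c ++ e, T, h3, ?_⟩
  have hpe : e.length < 2 ^ e.length := Nat.lt_two_pow_self
  have hp1 : 2 ^ e.length * 1 ≤ 2 ^ e.length * t := Nat.mul_le_mul_left _ ht
  have hp2 : 1 * t ≤ 2 ^ e.length * t := Nat.mul_le_mul_right _ Nat.one_le_two_pow
  have he : e.length < th := by
    rw [← Nat.pow_lt_pow_iff_right (a := 2) (by decide)]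
    omega
  have hlog : Nat.log 2 (t + e.length + 1) < th + 1 := by
    apply Nat.log_lt_of_lt_pow (by omega)
    rw [pow_succ]
    omega
  have hstrict : 2 ^ (c ++ e).length * T < 2 ^ th * (2 ^ c.length * k * (8 * (x.length + 2)) ^ (r + 1)) := by
    refine lt_of_le_of_lt ?_ (Nat.mul_lt_mul_of_pos_right h2 (by positivity))
    have hkap := kap_upper x.length
    have hl : Nat.log 2 (x.length + 2) ≤ x.length + 2 := Nat.log_le_self 2 _
    have h8 : th + 2 ≤ 8 * (x.length + 2) := by
      rw [kap] at hth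
      omega
    have g1 : t + e.length + 1 ≤ t * (8 * (x.length + 2)) := by
      calc t + e.length + 1 ≤ t * (th + 2) := by nlinarith
        _ ≤ _ := Nat.mul_le_mul_left _ h8
    have g2 : (Nat.log 2 (t + e.length + 1) + 1) ^ r ≤ (8 * (x.length + 2)) ^ r :=
      Nat.pow_le_pow_left (by omega) r
    calc 2 ^ (c ++ e).length * T
        ≤ 2 ^ (c ++ e).length * (k * (t * (8 * (x.length + 2))) * (8 * (x.length + 2)) ^ r) :=
          Nat.mul_le_mul_left _ (Nat.mul_le_mul (Nat.mul_le_mul_left _ g1) g2)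
      _ = (2 ^ e.length * t) * (2 ^ c.length * k * (8 * (x.length + 2)) ^ (r + 1)) := by
          rw [List.length_append, pow_add, pow_succ (8 * (x.length + 2))]
          ring
  rw [logb_term hT0]
  have hcast : ((2 ^ (c ++ e).length * T : ℕ) : ℝ) <
      (2 : ℝ) ^ th * (2 ^ c.length * k * (8 * (x.length + 2)) ^ (r + 1)) := by exact_mod_cast hstrict
  have hlog2 := Real.logb_lt_logb (b := 2) (by norm_num) (by positivity) hcast
  refine hlog2.trans_le ?_
  have hkpos : (0 : ℝ) < k := by exact_mod_cast hk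
  rw [Real.logb_mul (by positivity) (by positivity), Real.logb_mul (by positivity) (by positivity),
    Real.logb_mul (by positivity) (by positivity), Real.logb_pow, Real.logb_pow, Real.logb_pow,
    Real.logb_mul (by norm_num) (by positivity), Real.logb_self_eq_one (by norm_num)]
  have hL := logb_ge_one x.length
  have hlk : Real.logb 2 k ≤ k := by
    rw [Real.logb_le_iff_le_rpow (by norm_num) hkpos, Real.rpow_natCast]
    exact_mod_cast (Nat.lt_two_pow_self (n := k)).le
  have h8 : Real.logb 2 8 = 3 := by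
    rw [show (8 : ℝ) = 2 ^ (3 : ℕ) by norm_num, Real.logb_pow, Real.logb_self_eq_one (by norm_num)]
    norm_num
  rw [h8]
  push_cast
  nlinarith [mul_nonneg (Nat.cast_nonneg c.length : (0 : ℝ) ≤ c.length) (sub_nonneg.2 hL),
    mul_nonneg hkpos.le (sub_nonneg.2 hL),
    mul_nonneg (show (0 : ℝ) ≤ (r : ℝ) + 1 by positivity) (sub_nonneg.2 hL)]

theorem literal (B : List Bool → Bool) (x : List Bool) :
    KLt (slow M) B x (x.length + 3 + kap x.length) := by
  refine ⟨true :: true :: x, 2 ^ kap x.length, (run_lit M B x _ x).2 ⟨rfl, le_rfl⟩, ?_⟩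
  rw [List.length_cons, List.length_cons, ← pow_add]
  exact Nat.pow_lt_pow_right (by decide) (by omega)

theorem approx {c : List Bool} {k r : ℕ} (hsim : Simulates M c k r) : ∃ C : ℝ,
    ∀ (x : List Bool) (th : ℕ),
      (orc (fin M) (inf th x) = true →
        KtLt M (orc (fin M)) x (th + C * Real.logb 2 (x.length + 2))) ∧
      (orc (fin M) (inf th x) = false →
        ¬ KtLt M (orc (fin M)) x (th - C * Real.logb 2 (x.length + 2))) := by
  refine ⟨c.length + k + 4 * (r + 1) + 10, fun x th => ⟨fun h => ?_, fun h hlt => ?_⟩⟩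
  · have hL := logb_ge_one x.length
    rcases Nat.le_or_ge th (x.length + 3 + kap x.length) with h1 | h1
    · obtain ⟨e, t, h2, h3⟩ := upper M hsim _ x th h1 ((main M x th).2 h)
      refine ⟨e, t, h2, h3.trans_le ?_⟩
      nlinarith
    · obtain ⟨e, t, h2, h3⟩ := upper M hsim _ x _ le_rfl (literal M (orc (fin M)) x)
      refine ⟨e, t, h2, h3.trans_le ?_⟩
      have h4 : ((x.length + 3 + kap x.length : ℕ) : ℝ) ≤ th := by exact_mod_cast h1
      nlinarith
  · have hL := logb_ge_one x.length
    obtain ⟨e, t, h1, h2⟩ := close M _ x _ hlt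
    have h3 : KtLt (slow M) (orc (fin M)) x th := by
      refine ⟨e, t, h1, h2.trans_le ?_⟩
      have h4 : (0 : ℝ) ≤ c.length := Nat.cast_nonneg _
      have h5 : (0 : ℝ) ≤ k := Nat.cast_nonneg _
      have h6 : (0 : ℝ) ≤ r := Nat.cast_nonneg _
      nlinarith
    rw [ktLt_iff, main, h] at h3
    cases h3

end Pool.Agent.H62.KO
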