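import Pool.Agent.H62.KO.Orc

/-!
# Counting the queries of a stage
-/

set_option autoImplicit false

namespace Pool.Agent.H62.KO

open Finset

/-- the strings of length `i` -/
def LL (i : ℕ) : Finset (List Bool) := (Finset.univ : Finset (Fin i → Bool)).image List.ofFn

theorem mem_LL {i : ℕ} {d : List Bool} : d ∈ LL i ↔ d.length = i := by
  rw [LL, mem_image]
  constructor
  · rintro ⟨f, -, rfl⟩
    exact List.length_ofFn
  · rintro rfl
    exact ⟨d.get, mem_univ _, List.ofFn_get d⟩

theorem card_LL (i : ℕ) : (LL i).card = 2 ^ i := by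
  rw [LL, card_image_of_injective _ List.ofFn_injective, card_univ, Fintype.card_fun,
    Fintype.card_bool, Fintype.card_fin]

theorem long_list (s : ℕ) (l : List (List Bool)) :
    s * (l.toFinset.filter fun q => s ≤ q.length + 1).card ≤ (l.map fun q => q.length + 1).sum := by
  induction l with
  | nil => simp
  | cons a l ih =>
    rw [List.toFinset_cons, filter_insert, List.map_cons, List.sum_cons]
    split_ifs with h
    · have := card_insert_le a (l.toFinset.filter fun q => s ≤ q.length + 1)
      calc s * (insert a (l.toFinset.filter fun q => s ≤ q.length + 1)).card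
          ≤ s * ((l.toFinset.filter fun q => s ≤ q.length + 1).card + 1) := Nat.mul_le_mul_left _ this
        _ ≤ _ := by rw [Nat.mul_add, Nat.mul_one]; omega
    · omega

variable (M : OM)

/-- the long queries of stage `s` -/
def QF (s : ℕ) (S : St) : Finset (List Bool) := (range s).biUnion fun i => (LL i).biUnion fun d =>
  (tr M (orc S) (bud s d) (M.init d)).1.toFinset.filter fun q => s ≤ q.length + 1

theorem mem_QF {s : ℕ} {S : St} {q : List Bool} (h : Asked M s S q) (hq : s ≤ q.length + 1) :
    q ∈ QF M s S := by
  obtain ⟨d, hd⟩ := h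
  have h1 := mem_tr_length hd
  have h2 : d.length < s := by
    by_contra hc
    rw [bud, Nat.sub_eq_zero_of_le (not_lt.1 hc)] at h1
    omega
  rw [QF, mem_biUnion]
  refine ⟨d.length, mem_range.2 h2, ?_⟩
  rw [mem_biUnion]
  exact ⟨d, mem_LL.2 rfl, mem_filter.2 ⟨List.mem_toFinset.2 hd, hq⟩⟩

theorem card_QF (s : ℕ) (S : St) : (QF M s S).card ≤ 2 ^ s := by
  rcases Nat.eq_zero_or_pos s with h0 | hs
  · subst h0
    simp [QF]
  have h1 : s * (QF M s S).card ≤ s * 2 ^ s := by
    calc s * (QF M s S).card ≤ s * ∑ i ∈ range s, ∑ d ∈ LL i,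
          ((tr M (orc S) (bud s d) (M.init d)).1.toFinset.filter fun q => s ≤ q.length + 1).card :=
          Nat.mul_le_mul_left _ (card_biUnion_le.trans (sum_le_sum fun i _ => card_biUnion_le))
      _ = ∑ i ∈ range s, ∑ d ∈ LL i,
          s * ((tr M (orc S) (bud s d) (M.init d)).1.toFinset.filter fun q => s ≤ q.length + 1).card := by
          rw [mul_sum]
          exact sum_congr rfl fun i _ => mul_sum _ _ _
      _ ≤ ∑ i ∈ range s, ∑ d ∈ LL i, 2 ^ (s - i) := by
          refine sum_le_sum fun i _ => sum_le_sum fun d hd => ?_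
          refine (long_list s _).trans ((tr_cost _ _).trans ?_)
          rw [bud, mem_LL.1 hd]
          exact Nat.sub_le _ _
      _ = ∑ i ∈ range s, 2 ^ s := by
          refine sum_congr rfl fun i hi => ?_
          rw [sum_const, card_LL, smul_eq_mul, ← pow_add, Nat.add_sub_of_le (mem_range.1 hi).le]
      _ = s * 2 ^ s := by rw [sum_const, card_range, smul_eq_mul]
  exact Nat.le_of_mul_le_mul_left h1 hs

theorem exists_good (s : ℕ) (S : St) : ∃ f, Good M s S f := by
  classical
  -- the address of a touched entry
  have hT : ∀ p : List Bool, ∃ q, Touched M s S p → Asked M s S q ∧ ∃ b i, q = adr b p i := by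
    intro p
    by_cases h : Touched M s S p
    · obtain ⟨b, i, h1⟩ := h
      exact ⟨_, fun _ => ⟨h1, b, i, rfl⟩⟩
    · exact ⟨[], fun h' => absurd h' h⟩
  choose ad had using hT
  have hF : {x | Forced M s S x}.Finite := by
    refine Set.Finite.of_finite_image (f := fun x : List Bool => inf (s + 3 + kap x.length) x)
      ((QF M s S).finite_toSet.subset ?_) ?_
    · rintro _ ⟨x, hx, rfl⟩
      refine mem_QF M hx.2 ?_
      rw [inf_length]
      omega
    · intro x _ y _ h
      exact (inf_inj h).2
  have hcard : hF.toFinset.card + ((LL s).filter fun p => Touched M s S p).card ≤ 2 ^ s := by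
    have h1 : (hF.toFinset.image fun x : List Bool => inf (s + 3 + kap x.length) x).card =
        hF.toFinset.card := by
      refine card_image_of_injOn ?_
      intro x _ y _ h
      exact (inf_inj h).2
    have h2 : (((LL s).filter fun p => Touched M s S p).image ad).card =
        ((LL s).filter fun p => Touched M s S p).card := by
      refine card_image_of_injOn ?_
      intro p hp p' hp' h
      obtain ⟨-, b, i, e1⟩ := had p (mem_filter.1 hp).2
      obtain ⟨-, b', i', e2⟩ := had p' (mem_filter.1 hp').2
      rw [e1, e2] at h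
      exact (adr_inj h).2.1
    rw [← h1, ← h2, ← card_union_of_disjoint]
    · refine (card_le_card ?_).trans (card_QF M s S)
      refine union_subset ?_ ?_
      · intro q hq
        obtain ⟨x, hx, rfl⟩ := mem_image.1 hq
        have hx' : Forced M s S x := hF.mem_toFinset.1 hx
        refine mem_QF M hx'.2 ?_
        rw [inf_length]
        omega
      · intro q hq
        obtain ⟨p, hp, rfl⟩ := mem_image.1 hq
        obtain ⟨h3, b, i, e⟩ := had p (mem_filter.1 hp).2
        refine mem_QF M h3 ?_
        rw [e, adr_length, mem_LL.1 (mem_filter.1 hp).1]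
        omega
    · rw [disjoint_left]
      intro q hq hq'
      obtain ⟨x, hx, rfl⟩ := mem_image.1 hq
      obtain ⟨p, hp, e⟩ := mem_image.1 hq'
      obtain ⟨-, b, i, e'⟩ := had p (mem_filter.1 hp).2
      exact inf_ne_adr (e.symm.trans e')
  have hle : hF.toFinset.card ≤ ((LL s).filter fun p => ¬ Touched M s S p).card := by
    have h3 := card_filter_add_card_filter_not (s := LL s) (fun p => Touched M s S p)
    rw [card_LL] at h3
    omega
  obtain ⟨f, hf1, hf2⟩ := Set.Finite.exists_injOn_of_encard_le (s := {x | Forced M s S x})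
    (t := {p : List Bool | p.length = s ∧ ¬ Touched M s S p}) hF (by
      have e1 : {p : List Bool | p.length = s ∧ ¬ Touched M s S p} =
          (((LL s).filter fun p => ¬ Touched M s S p : Finset (List Bool)) : Set (List Bool)) := by
        ext p
        rw [mem_coe, mem_filter, mem_LL]
        rfl
      rw [e1, Set.encard_coe_eq_coe_finsetCard, hF.encard_eq_coe_toFinset_card]
      exact_mod_cast hle)
  exact ⟨f, fun x hx => hf1 hx, fun x y hx hy h => hf2 hx hy h⟩

theorem good_emb (s : ℕ) (S : St) : Good M s S (emb M s S) := by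
  classical
  have h := exists_good M s S
  rw [emb, dif_pos h]
  exact h.choose_spec

end Pool.Agent.H62.KO
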