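import Mathlib

/-!
# Levin's complexity relative to an oracle: oracle machines

An oracle machine is given by its configurations (an arbitrary set) and by what it does in each
configuration: output a string and stop, make a step, or ask the oracle. A step costs `1`, a query of
the string `q` costs `|q| + 1`, the output of `x` costs `|x| + 1`.
-/

set_option autoImplicit false

namespace Pool.Agent.H62.KO

/-- what a machine does in a configuration -/
inductive Act (σ : Type)
  /-- output the string `x` and stop -/
  | out (x : List Bool)
  /-- go to the configuration `s` -/
  | go (s : σ)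
  /-- ask the oracle whether it contains `q` and go to the configuration `f answer` -/
  | ask (q : List Bool) (f : Bool → σ)

/-- oracle machines -/
structure OM where
  σ : Type
  init : List Bool → σ
  act : σ → Act σ

/-- From the configuration `s` the machine `M` with the oracle `A` outputs `x` within `t` steps. -/
inductive Run (M : OM) (A : List Bool → Bool) : M.σ → ℕ → List Bool → Prop
  | out (s : M.σ) (t : ℕ) (x : List Bool) : M.act s = .out x → x.length + 1 ≤ t → Run M A s t x
  | go (s s' : M.σ) (t : ℕ) (x : List Bool) : M.act s = .go s' → Run M A s' t x →
      Run M A s (t + 1) x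
  | ask (s : M.σ) (q : List Bool) (f : Bool → M.σ) (t : ℕ) (x : List Bool) : M.act s = .ask q f →
      Run M A (f (A q)) t x → Run M A s (t + (q.length + 1)) x

/-- `Kt x < r` for the machine `M` with the oracle `A`: some program `e` outputs `x` within `t` steps and
`|e| + log₂ t < r`. -/
def KtLt (M : OM) (A : List Bool → Bool) (x : List Bool) (r : ℝ) : Prop :=
  ∃ (e : List Bool) (t : ℕ), Run M A (M.init e) t x ∧ (e.length : ℝ) + Real.logb 2 t < r

/-- The set `R_Kt` of the strings `x` with `Kt x ≥ |x|`. -/
def RKt (M : OM) (A : List Bool → Bool) : Set (List Bool) := {x | ¬ KtLt M A x x.length}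

/-- `2 ^ kap n` is about `32 n ^ 2` -/
def kap (n : ℕ) : ℕ := 2 * Nat.log 2 (n + 2) + 5

/-- the address of the information about `Kt x < th` -/
def inf (th : ℕ) (x : List Bool) : List Bool := false :: (List.replicate th true ++ false :: x)

/-- the addresses of the entry `p` of the table: end flag (`b = true`) and bit (`b = false`) number `i` -/
def adr (b : Bool) (p : List Bool) (i : ℕ) : List Bool :=
  true :: b :: (List.replicate i true ++ false :: p)

/-- the configurations of the machine `slow M` -/
inductive Cf (σ : Type)
  | dead
  | sim (s : σ) (c : ℕ)
  | wait (k : ℕ) (x : List Bool)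
  | flag (p y : List Bool) (c : ℕ)
  | bit (p y : List Bool) (c : ℕ)

/-- the first configuration of `slow M` -/
def cinit (M : OM) : List Bool → Cf M.σ
  | false :: d => .sim (M.init d) 0
  | true :: false :: p => .flag p [] 0
  | true :: true :: x => .wait (2 ^ kap x.length - (x.length + 1)) x
  | _ => .dead

/-- what `slow M` does (`c` is the cost up to now) -/
def cact (M : OM) : Cf M.σ → Act (Cf M.σ)
  | .dead => .go .dead
  | .wait 0 x => .out x
  | .wait (k + 1) x => .go (.wait k x)
  | .sim s c => match M.act s with
    | .out x => .go (.wait (2 ^ (kap x.length + 2) * (c + x.length + 1) - (c + x.length + 2)) x)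
    | .go s' => .go (.sim s' (c + 1))
    | .ask q f => .ask q fun b => .sim (f b) (c + (q.length + 1))
  | .flag p y c => .ask (adr true p y.length) fun b =>
      if b then .wait (2 ^ kap y.length - (c + ((adr true p y.length).length + 1) + (y.length + 1))) y
      else .bit p y (c + ((adr true p y.length).length + 1))
  | .bit p y c => .ask (adr false p y.length) fun b =>
      .flag p (y ++ [b]) (c + ((adr false p y.length).length + 1))

/-- The modified machine. On `0d` it works as `M` on `d`, but when `M` outputs `x` within (exactly) `t`
steps then it outputs `x` at time `2 ^ (kap |x| + 2) * t`. On `10p` it reads the entry `p` of the table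
in the oracle, and on `11x` it outputs `x`, both at time `2 ^ kap |x|`. -/
def slow (M : OM) : OM := ⟨Cf M.σ, cinit M, cact M⟩

/-- `M` simulates the modified machine with overhead `t` times a power of `log t`: if `slow M` on `e`
outputs `x` within `t` steps then `M` on `ce` outputs `x` within `k T (log T + 1) ^ r` steps,
`T = t + |e| + 1` (for every oracle). Every efficient universal oracle machine has this property. -/
def Simulates (M : OM) (c : List Bool) (k r : ℕ) : Prop :=
  ∀ (B : List Bool → Bool) (e : List Bool) (t : ℕ) (x : List Bool),
    Run (slow M) B ((slow M).init e) t x → Run M B (M.init (c ++ e))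
      (k * (t + e.length + 1) * (Nat.log 2 (t + e.length + 1) + 1) ^ r) x

end Pool.Agent.H62.KO
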