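import Pool.Agent.H62.KO.Stab

/-!
# The running times of the modified machine
-/

set_option autoImplicit false

namespace Pool.Agent.H62.KO

section Inv

variable {M : OM} {A : List Bool → Bool}

theorem run_out_iff {s : M.σ} {y : List Bool} (h : M.act s = .out y) (t : ℕ) (x : List Bool) :
    Run M A s t x ↔ x = y ∧ x.length + 1 ≤ t := by
  rw [run_iff, tr_out h]
  simp only
  constructor
  · intro h1
    split_ifs at h1 with h2
    cases h1
    exact ⟨rfl, h2⟩
  · rintro ⟨rfl, h2⟩
    rw [if_pos h2]

theorem run_go_iff {s s' : M.σ} (h : M.act s = .go s') (t : ℕ) (x : List Bool) :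
    Run M A s t x ↔ ∃ t', t = t' + 1 ∧ Run M A s' t' x := by
  constructor
  · intro h1
    rw [run_iff, tr_go h] at h1
    split_ifs at h1 with h2
    · exact ⟨t - 1, by omega, run_iff.2 h1⟩
  · rintro ⟨t', rfl, h1⟩
    exact Run.go s s' t' x h h1

theorem run_ask_iff {s : M.σ} {q : List Bool} {f : Bool → M.σ} (h : M.act s = .ask q f) (t : ℕ)
    (x : List Bool) : Run M A s t x ↔ ∃ t', t = t' + (q.length + 1) ∧ Run M A (f (A q)) t' x := by
  constructor
  · intro h1
    rw [run_iff, tr_ask h] at h1
    split_ifs at h1 with h2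
    · exact ⟨t - (q.length + 1), by omega, run_iff.2 h1⟩
  · rintro ⟨t', rfl, h1⟩
    exact Run.ask s q f t' x h h1

end Inv

theorem kap_lower (n : ℕ) : 8 * (n + 2) ^ 2 ≤ 2 ^ kap n := by
  have h1 : n + 2 < 2 ^ (Nat.log 2 (n + 2) + 1) := Nat.lt_pow_succ_log_self (by decide) _
  have h2 : 2 ^ kap n = 32 * (2 ^ Nat.log 2 (n + 2)) ^ 2 := by
    rw [kap, pow_add, mul_comm 2, pow_mul]
    ring
  rw [h2]
  rw [pow_succ] at h1
  nlinarith

theorem kap_upper (n : ℕ) : 2 ^ kap n ≤ 32 * (n + 2) ^ 2 := by
  have h1 : 2 ^ Nat.log 2 (n + 2) ≤ n + 2 := Nat.pow_log_le_self 2 (by omega)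
  have h2 : 2 ^ kap n = 32 * (2 ^ Nat.log 2 (n + 2)) ^ 2 := by
    rw [kap, pow_add, mul_comm 2, pow_mul]
    ring
  rw [h2]
  exact Nat.mul_le_mul_left _ (Nat.pow_le_pow_left h1 2)

variable (M : OM) (A : List Bool → Bool)

theorem dead_run (t : ℕ) (x : List Bool) : ¬ Run (slow M) A Cf.dead t x := by
  induction t with
  | zero =>
    intro h
    have := h.pos
    omega
  | succ t ih =>
    intro h
    obtain ⟨t', h1, h2⟩ := (run_go_iff (M := slow M) (s := Cf.dead) (s' := Cf.dead) rfl _ _).1 h
    have : t' = t := by omega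
    subst this
    exact ih h2

theorem wait_run (k : ℕ) (y : List Bool) (t : ℕ) (x : List Bool) :
    Run (slow M) A (Cf.wait k y) t x ↔ x = y ∧ k + (x.length + 1) ≤ t := by
  induction k generalizing t with
  | zero =>
    rw [run_out_iff (M := slow M) (s := Cf.wait 0 y) (y := y) rfl, Nat.zero_add]
  | succ k ih =>
    rw [run_go_iff (M := slow M) (s := Cf.wait (k + 1) y) (s' := Cf.wait k y) rfl]
    constructor
    · rintro ⟨t', rfl, h⟩
      have := (ih t').1 h
      exact ⟨this.1, by omega⟩
    · rintro ⟨h1, h2⟩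
      exact ⟨t - 1, by omega, (ih _).2 ⟨h1, by omega⟩⟩

theorem act_sim_out {s : M.σ} {y : List Bool} (h : M.act s = .out y) (c : ℕ) :
    (slow M).act (Cf.sim s c) =
      .go (.wait (2 ^ (kap y.length + 2) * (c + y.length + 1) - (c + y.length + 2)) y) := by
  change cact M (Cf.sim s c) = _
  rw [cact, h]
  rfl

theorem act_sim_go {s s' : M.σ} (h : M.act s = .go s') (c : ℕ) :
    (slow M).act (Cf.sim s c) = .go (.sim s' (c + 1)) := by
  change cact M (Cf.sim s c) = _
  rw [cact, h]
  rfl

theorem act_sim_ask {s : M.σ} {q : List Bool} {f : Bool → M.σ} (h : M.act s = .ask q f) (c : ℕ) :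
    (slow M).act (Cf.sim s c) = .ask q fun b => .sim (f b) (c + (q.length + 1)) := by
  change cact M (Cf.sim s c) = _
  rw [cact, h]
  rfl

theorem sim_run_fwd (x : List Bool) (t : ℕ) : ∀ (s : M.σ) (c : ℕ),
    Run (slow M) A (Cf.sim s c) t x →
      ∃ τ, Run M A s τ x ∧ 2 ^ (kap x.length + 2) * (c + τ) ≤ c + t := by
  induction t using Nat.strong_induction_on with
  | _ t ih =>
    intro s c h
    cases hs : M.act s with
    | out y =>
      obtain ⟨t', h1, h2⟩ := (run_go_iff (act_sim_out M hs c) _ _).1 h
      obtain ⟨rfl, h3⟩ := (wait_run M A _ _ _ _).1 h2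
      refine ⟨x.length + 1, Run.out _ _ _ hs le_rfl, ?_⟩
      rw [← add_assoc c]
      omega
    | go s' =>
      obtain ⟨t', h1, h2⟩ := (run_go_iff (act_sim_go M hs c) _ _).1 h
      obtain ⟨τ, h3, h4⟩ := ih t' (by omega) s' (c + 1) h2
      refine ⟨τ + 1, Run.go _ _ _ _ hs h3, ?_⟩
      have e : c + (τ + 1) = c + 1 + τ := by omega
      rw [e]
      omega
    | ask q f =>
      obtain ⟨t', h1, h2⟩ := (run_ask_iff (act_sim_ask M hs c) _ _).1 h
      obtain ⟨τ, h3, h4⟩ := ih t' (by omega) (f (A q)) (c + (q.length + 1)) h2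
      refine ⟨τ + (q.length + 1), Run.ask _ _ _ _ _ hs h3, ?_⟩
      have e : c + (τ + (q.length + 1)) = c + (q.length + 1) + τ := by omega
      rw [e]
      omega

theorem sim_run_bwd {s : M.σ} {τ : ℕ} {x : List Bool} (h : Run M A s τ x) : ∀ c : ℕ,
    Run (slow M) A (Cf.sim s c) (2 ^ (kap x.length + 2) * (c + τ) - c) x := by
  have h4 : 4 ≤ 2 ^ (kap x.length + 2) := by
    rw [pow_add]
    have := Nat.one_le_two_pow (n := kap x.length)
    omega
  induction h with
  | out s t x h1 h2 =>
    intro c
    rw [run_go_iff (act_sim_out M h1 c)]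
    have h5 : 2 ^ (kap x.length + 2) * (c + x.length + 1) ≤ 2 ^ (kap x.length + 2) * (c + t) :=
      Nat.mul_le_mul_left _ (by omega)
    have h6 : 4 * (c + x.length + 1) ≤ 2 ^ (kap x.length + 2) * (c + x.length + 1) :=
      Nat.mul_le_mul_right _ h4
    refine ⟨2 ^ (kap x.length + 2) * (c + t) - c - 1, by omega, ?_⟩
    rw [wait_run]
    exact ⟨rfl, by omega⟩
  | go s s' t x h1 h2 ih =>
    intro c
    rw [run_go_iff (act_sim_go M h1 c)]
    have h6 : 4 * (c + 1 + t) ≤ 2 ^ (kap x.length + 2) * (c + 1 + t) := Nat.mul_le_mul_right _ h4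
    refine ⟨_, ?_, ih h4 (c + 1)⟩
    have e : c + (t + 1) = c + 1 + t := by omega
    rw [e]
    omega
  | ask s q f t x h1 h2 ih =>
    intro c
    rw [run_ask_iff (act_sim_ask M h1 c)]
    have h6 : 4 * (c + (q.length + 1) + t) ≤ 2 ^ (kap x.length + 2) * (c + (q.length + 1) + t) :=
      Nat.mul_le_mul_right _ h4
    refine ⟨_, ?_, ih h4 (c + (q.length + 1))⟩
    have e : c + (t + (q.length + 1)) = c + (q.length + 1) + t := by omega
    rw [e]
    omega

/-- the programs `0d` -/
theorem run_zero (d : List Bool) (t : ℕ) (x : List Bool) :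
    Run (slow M) A ((slow M).init (false :: d)) t x ↔
      ∃ τ, Run M A (M.init d) τ x ∧ 2 ^ (kap x.length + 2) * τ ≤ t := by
  change Run (slow M) A (Cf.sim (M.init d) 0) t x ↔ _
  constructor
  · intro h
    obtain ⟨τ, h1, h2⟩ := sim_run_fwd M A x t _ _ h
    exact ⟨τ, h1, by simpa using h2⟩
  · rintro ⟨τ, h1, h2⟩
    have h3 := sim_run_bwd M A h1 0
    rw [Nat.zero_add, Nat.sub_zero] at h3
    exact h3.mono h2

/-- the programs `11x` -/
theorem run_lit (y : List Bool) (t : ℕ) (x : List Bool) :
    Run (slow M) A ((slow M).init (true :: true :: y)) t x ↔ x = y ∧ 2 ^ kap x.length ≤ t := by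
  change Run (slow M) A (Cf.wait (2 ^ kap y.length - (y.length + 1)) y) t x ↔ _
  rw [wait_run]
  have h1 := kap_lower y.length
  constructor
  · rintro ⟨rfl, h⟩
    exact ⟨rfl, by omega⟩
  · rintro ⟨rfl, h⟩
    refine ⟨rfl, ?_⟩
    have h2 : x.length + 1 ≤ 8 * (x.length + 2) ^ 2 := by nlinarith
    omega

theorem act_flag (p y : List Bool) (c : ℕ) : (slow M).act (Cf.flag p y c) =
    .ask (adr true p y.length) fun b =>
      if b then .wait (2 ^ kap y.length - (c + ((adr true p y.length).length + 1) + (y.length + 1))) y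
      else .bit p y (c + ((adr true p y.length).length + 1)) := rfl

theorem act_bit (p y : List Bool) (c : ℕ) : (slow M).act (Cf.bit p y c) =
    .ask (adr false p y.length) fun b =>
      .flag p (y ++ [b]) (c + ((adr false p y.length).length + 1)) := rfl

variable (S : St)

theorem flag_none {p : List Bool} (hp : S.T p = none) (x : List Bool) (t : ℕ) :
    ∀ (y : List Bool) (c : ℕ), ¬ Run (slow M) (orc S) (Cf.flag p y c) t x := by
  induction t using Nat.strong_induction_on with
  | _ t ih =>
    intro y c h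
    obtain ⟨t', h1, h2⟩ := (run_ask_iff (act_flag M p y c) _ _).1 h
    rw [orc_adr, hp] at h2
    change Run (slow M) (orc S) (Cf.bit p y _) t' x at h2
    obtain ⟨t'', h3, h4⟩ := (run_ask_iff (act_bit M p y _) _ _).1 h2
    exact ih t'' (by omega) _ _ h4

theorem take_succ' {z : List Bool} {i : ℕ} (h : i < z.length) :
    z.take i ++ [z.getD i false] = z.take (i + 1) := by
  rw [List.take_add_one, List.getD_eq_getElem?_getD, List.getElem?_eq_getElem h]
  rfl

theorem flag_some {p z : List Bool} (hp : S.T p = some z) (x : List Bool) (t : ℕ) :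
    ∀ (i : ℕ) (c : ℕ), i ≤ z.length → Run (slow M) (orc S) (Cf.flag p (z.take i) c) t x →
      x = z ∧ 2 ^ kap z.length ≤ c + t := by
  induction t using Nat.strong_induction_on with
  | _ t ih =>
    intro i c hi h
    have hl : (z.take i).length = i := by rw [List.length_take]; omega
    obtain ⟨t', h1, h2⟩ := (run_ask_iff (act_flag M p (z.take i) c) _ _).1 h
    rw [orc_adr, hp, hl] at h2
    rcases Nat.lt_or_ge i z.length with h3 | h3
    · have e : ent (some z) true i = false := decide_eq_false (by omega)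
      rw [e] at h2
      change Run (slow M) (orc S) (Cf.bit p (z.take i) _) t' x at h2
      obtain ⟨t'', h4, h5⟩ := (run_ask_iff (act_bit M p (z.take i) _) _ _).1 h2
      rw [orc_adr, hp, hl] at h5
      have e2 : ent (some z) false i = z.getD i false := rfl
      rw [e2] at h5
      change Run (slow M) (orc S) (Cf.flag p (z.take i ++ [z.getD i false]) _) t'' x at h5
      rw [take_succ' h3] at h5
      have h6 := ih t'' (by omega) (i + 1) _ h3 h5
      refine ⟨h6.1, ?_⟩
      have h7 := h6.2
      rw [hl, adr_length] at h1 h4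
      rw [adr_length, adr_length] at h7
      omega
    · have hiz : i = z.length := le_antisymm hi h3
      subst hiz
      have e : ent (some z) true z.length = true := decide_eq_true rfl
      rw [e, List.take_length] at h2
      change Run (slow M) (orc S) (Cf.wait (2 ^ kap z.length -
        (c + ((adr true p z.length).length + 1) + (z.length + 1))) z) t' x at h2
      obtain ⟨rfl, h4⟩ := (wait_run M (orc S) _ _ _ _).1 h2
      refine ⟨rfl, ?_⟩
      rw [hl] at h1
      omega

theorem flag_run {p z : List Bool} (hp : S.T p = some z) (m : ℕ) : ∀ (i : ℕ) (c : ℕ),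
    i + m = z.length → c + (2 * m + 1) * (z.length + p.length + 4) + z.length + 1 ≤ 2 ^ kap z.length →
      Run (slow M) (orc S) (Cf.flag p (z.take i) c) (2 ^ kap z.length - c) z := by
  induction m with
  | zero =>
    intro i c hi h
    have hi' : i = z.length := by omega
    subst hi'
    rw [run_ask_iff (act_flag M p _ c), orc_adr, hp, List.take_length]
    have e : ent (some z) true z.length = true := decide_eq_true rfl
    rw [e]
    refine ⟨2 ^ kap z.length - c - (z.length + p.length + 3 + 1), by rw [adr_length]; omega, ?_⟩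
    change Run (slow M) (orc S) (Cf.wait (2 ^ kap z.length -
        (c + ((adr true p z.length).length + 1) + (z.length + 1))) z) _ z
    rw [wait_run, adr_length]
    exact ⟨rfl, by omega⟩
  | succ m ih =>
    intro i c hi h
    have hl : (z.take i).length = i := by rw [List.length_take]; omega
    have e0 : (2 * (m + 1) + 1) * (z.length + p.length + 4) =
        (2 * m + 1) * (z.length + p.length + 4) + 2 * (z.length + p.length + 4) := by ring
    rw [e0] at h
    rw [run_ask_iff (act_flag M p _ c), orc_adr, hp, hl]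
    have e : ent (some z) true i = false := decide_eq_false (by omega)
    rw [e]
    refine ⟨2 ^ kap z.length - c - (i + p.length + 3 + 1), by rw [adr_length]; omega, ?_⟩
    change Run (slow M) (orc S) (Cf.bit p (z.take i) (c + ((adr true p i).length + 1))) _ z
    rw [run_ask_iff (act_bit M p _ _), orc_adr, hp, hl, adr_length, adr_length]
    have e2 : ent (some z) false i = z.getD i false := rfl
    rw [e2]
    have h2 := ih (i + 1) (c + (i + p.length + 3 + 1) + (i + p.length + 3 + 1)) (by omega) (by omega)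
    rw [← take_succ' (by omega : i < z.length)] at h2
    refine ⟨_, ?_, h2⟩
    omega

/-- the programs `10p` -/
theorem run_tab {p x : List Bool} {t : ℕ}
    (h : Run (slow M) (orc S) ((slow M).init (true :: false :: p)) t x) :
    S.T p = some x ∧ 2 ^ kap x.length ≤ t := by
  change Run (slow M) (orc S) (Cf.flag p [] 0) t x at h
  cases hp : S.T p with
  | none => exact absurd h (flag_none M S hp x t [] 0)
  | some z =>
    have h1 := flag_some M S hp x t 0 0 (Nat.zero_le _) h
    obtain ⟨rfl, h2⟩ := h1
    exact ⟨rfl, by omega⟩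

theorem tab_run {p x : List Bool} (hp : S.T p = some x) (hlt : p.length < x.length) :
    Run (slow M) (orc S) ((slow M).init (true :: false :: p)) (2 ^ kap x.length) x := by
  change Run (slow M) (orc S) (Cf.flag p (x.take 0) 0) _ x
  have h1 := flag_run M S hp x.length 0 0 (by omega) (by
    have h2 := kap_lower x.length
    have h3 : (2 * x.length + 1) * (x.length + p.length + 4) ≤
        (2 * x.length + 1) * (2 * x.length + 3) := Nat.mul_le_mul_left _ (by omega)
    nlinarith)
  rwa [Nat.sub_zero] at h1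

end Pool.Agent.H62.KO
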