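import Pool.Agent.H62.KO.Mach

/-!
# The final oracle knows the complexity of every string
-/

set_option autoImplicit false

namespace Pool.Agent.H62.KO

/-- `Kt x < th` for natural numbers `th` -/
def KLt (M : OM) (A : List Bool → Bool) (x : List Bool) (th : ℕ) : Prop :=
  ∃ (e : List Bool) (t : ℕ), Run M A (M.init e) t x ∧ 2 ^ e.length * t < 2 ^ th

theorem KLt.mono {M : OM} {A : List Bool → Bool} {x : List Bool} {th th' : ℕ} (h : KLt M A x th)
    (hle : th ≤ th') : KLt M A x th' := by
  obtain ⟨e, t, h1, h2⟩ := h
  exact ⟨e, t, h1, h2.trans_le (Nat.pow_le_pow_right (by decide) hle)⟩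

theorem logb_term {e : List Bool} {t : ℕ} (ht : 0 < t) :
    (e.length : ℝ) + Real.logb 2 t = Real.logb 2 ((2 ^ e.length * t : ℕ) : ℝ) := by
  rw [Nat.cast_mul, Nat.cast_pow, Real.logb_mul (by positivity) (by positivity), Real.logb_pow,
    Nat.cast_ofNat, Real.logb_self_eq_one (by norm_num), mul_one]

theorem ktLt_iff {M : OM} {A : List Bool → Bool} {x : List Bool} {th : ℕ} :
    KtLt M A x th ↔ KLt M A x th := by
  have key : ∀ (e : List Bool) (t : ℕ), 0 < t →
      ((e.length : ℝ) + Real.logb 2 t < th ↔ 2 ^ e.length * t < 2 ^ th) := by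
    intro e t ht
    rw [logb_term ht, Real.logb_lt_iff_lt_rpow (by norm_num) (by positivity), Real.rpow_natCast]
    exact_mod_cast Iff.rfl
  constructor
  · rintro ⟨e, t, h1, h2⟩
    exact ⟨e, t, h1, (key e t (by have := h1.pos; omega)).1 h2⟩
  · rintro ⟨e, t, h1, h2⟩
    exact ⟨e, t, h1, (key e t (by have := h1.pos; omega)).2 h2⟩

variable (M : OM)

theorem fin_I_mono {x : List Bool} (j k : ℕ) (h : (fin M).I (j + 3 + kap x.length) x = true) :
    (fin M).I (j + k + 3 + kap x.length) x = true := by
  induction k with
  | zero => rwa [Nat.add_zero]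
  | succ k ih =>
    rcases Nat.lt_or_ge (j + (k + 1)) x.length with h1 | h1
    · rw [fin_I M _ x h1]
      right
      right
      have e : j + (k + 1) + 2 + kap x.length = j + k + 3 + kap x.length := by omega
      rw [e]
      exact ih
    · exact fin_I_high M _ x (by omega)

theorem klt_of_info (x : List Bool) (j : ℕ) : j < x.length →
    (fin M).I (j + 3 + kap x.length) x = true →
      KLt (slow M) (orc (fin M)) x (j + 3 + kap x.length) := by
  induction j with
  | zero =>
    intro hj h
    rw [fin_I M 0 x hj] at h
    rcases h with h | h | h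
    · obtain ⟨d, t, h1, h2⟩ := (printed_iff M 0 x).1 h
      have h3 := h1.pos
      have h4 := Nat.one_le_two_pow (n := d.length)
      have h5 : 1 * 1 ≤ 2 ^ d.length * t := Nat.mul_le_mul h4 (by omega)
      omega
    · obtain ⟨d, hd⟩ := h.2
      have h1 := mem_tr_length hd
      rw [bud, Nat.zero_sub, pow_zero] at h1
      omega
    · rw [fin_I_low M _ x (by omega)] at h
      cases h
  | succ j ih =>
    intro hj h
    rw [fin_I M (j + 1) x hj] at h
    rcases h with h | h | h
    · obtain ⟨d, t, h1, h2⟩ := (printed_iff M (j + 1) x).1 h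
      refine ⟨false :: d, 2 ^ (kap x.length + 2) * t, (run_zero M _ d _ x).2 ⟨t, h1, le_rfl⟩, ?_⟩
      rw [List.length_cons]
      calc 2 ^ (d.length + 1) * (2 ^ (kap x.length + 2) * t)
          = 2 ^ (3 + kap x.length) * (2 ^ d.length * t) := by rw [pow_succ, pow_add, pow_add]; ring
        _ < 2 ^ (3 + kap x.length) * 2 ^ (j + 1) :=
          Nat.mul_lt_mul_of_pos_left h2 (Nat.two_pow_pos _)
        _ = _ := by rw [← pow_add]; congr 1; omega
    · have hg := (good_emb M (j + 1) (st M (j + 1))).1 x h
      have hT : (fin M).T (emb M (j + 1) (st M (j + 1)) x) = some x := by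
        rw [fin_T, hg.1]
        exact ⟨h, rfl⟩
      refine ⟨true :: false :: emb M (j + 1) (st M (j + 1)) x, 2 ^ kap x.length,
        tab_run M (fin M) hT (by rw [hg.1]; exact hj), ?_⟩
      rw [List.length_cons, List.length_cons, hg.1, ← pow_add]
      exact Nat.pow_lt_pow_right (by decide) (by omega)
    · have e : j + 1 + 2 + kap x.length = j + 3 + kap x.length := by omega
      rw [e] at h
      exact (ih (by omega) h).mono (by omega)

/-- the final oracle knows the complexity of every string -/
theorem main (x : List Bool) (th : ℕ) :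
    KLt (slow M) (orc (fin M)) x th ↔ orc (fin M) (inf th x) = true := by
  rw [orc_inf]
  constructor
  · rintro ⟨e, t, h1, h2⟩
    match e with
    | [] => exact absurd h1 (dead_run M _ t x)
    | [true] => exact absurd h1 (dead_run M _ t x)
    | false :: d =>
      obtain ⟨τ, h3, h4⟩ := (run_zero M _ d t x).1 h1
      have h5 : 2 ^ (3 + kap x.length) * (2 ^ d.length * τ) < 2 ^ th := by
        calc 2 ^ (3 + kap x.length) * (2 ^ d.length * τ)
            = 2 ^ (d.length + 1) * (2 ^ (kap x.length + 2) * τ) := by
              rw [pow_succ, pow_add, pow_add]; ring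
          _ ≤ 2 ^ (d.length + 1) * t := Nat.mul_le_mul_left _ h4
          _ < 2 ^ th := h2
      have h6 : 3 + kap x.length ≤ th := by
        by_contra hc
        have h7 : 2 ^ th ≤ 2 ^ (3 + kap x.length) := Nat.pow_le_pow_right (by decide) (by omega)
        have h8 := h3.pos
        have h9 : 1 * 1 ≤ 2 ^ d.length * τ := Nat.mul_le_mul Nat.one_le_two_pow (by omega)
        have h10 : 2 ^ (3 + kap x.length) * 1 ≤ 2 ^ (3 + kap x.length) * (2 ^ d.length * τ) :=
          Nat.mul_le_mul_left _ (by omega)
        omega
      obtain ⟨j, rfl⟩ := Nat.exists_eq_add_of_le h6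
      have e : 3 + kap x.length + j = j + 3 + kap x.length := by omega
      rcases Nat.lt_or_ge j x.length with h7 | h7
      · rw [e, fin_I M j x h7]
        left
        rw [printed_iff]
        rw [pow_add 2 (3 + kap x.length)] at h5
        exact ⟨d, τ, h3, Nat.lt_of_mul_lt_mul_left h5⟩
      · exact fin_I_high M _ x (by omega)
    | true :: false :: p =>
      obtain ⟨h3, h4⟩ := run_tab M (fin M) h1
      have h5 : p.length + 2 + kap x.length < th := by
        rw [← Nat.pow_lt_pow_iff_right (a := 2) (by decide), pow_add]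
        exact lt_of_le_of_lt (Nat.mul_le_mul_left _ h4) h2
      have h6 := ((fin_T M p x).1 h3).1
      have h7 : (fin M).I (p.length + 3 + kap x.length) x = true := by
        rw [fin_I M _ x h6.1]
        exact Or.inr (Or.inl h6)
      obtain ⟨k, rfl⟩ := Nat.exists_eq_add_of_le (show p.length + 3 + kap x.length ≤ th by omega)
      have h8 := fin_I_mono M p.length k h7
      have e : p.length + 3 + kap x.length + k = p.length + k + 3 + kap x.length := by omega
      rw [e]
      exact h8
    | true :: true :: y =>
      obtain ⟨rfl, h4⟩ := (run_lit M _ y t x).1 h1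
      have h5 : x.length + 2 + kap x.length < th := by
        rw [← Nat.pow_lt_pow_iff_right (a := 2) (by decide), pow_add]
        exact lt_of_le_of_lt (Nat.mul_le_mul_left _ h4) h2
      exact fin_I_high M _ x (by omega)
  · intro h
    rcases Nat.lt_or_ge th (3 + kap x.length) with h1 | h1
    · rw [fin_I_low M _ x h1] at h
      cases h
    obtain ⟨j, rfl⟩ := Nat.exists_eq_add_of_le h1
    have e : 3 + kap x.length + j = j + 3 + kap x.length := by omega
    rcases Nat.lt_or_ge j x.length with h2 | h2
    · rw [e] at h ⊢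
      exact klt_of_info M x j h2 h
    · refine ⟨true :: true :: x, 2 ^ kap x.length, (run_lit M _ x _ x).2 ⟨rfl, le_rfl⟩, ?_⟩
      rw [List.length_cons, List.length_cons, ← pow_add]
      exact Nat.pow_lt_pow_right (by decide) (by omega)

end Pool.Agent.H62.KO
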