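import Pool.Agent.H62.KO.Trace

/-!
# The oracles `B_s`
-/

set_option autoImplicit false

namespace Pool.Agent.H62.KO

/-- the number of ones at the beginning, and the rest -/
def spl : List Bool → Option (ℕ × List Bool)
  | [] => none
  | false :: r => some (0, r)
  | true :: r => (spl r).map fun k => (k.1 + 1, k.2)

theorem spl_rep (k : ℕ) (x : List Bool) : spl (List.replicate k true ++ false :: x) = some (k, x) := by
  induction k with
  | zero => rfl
  | succ k ih =>
    rw [List.replicate_succ, List.cons_append, spl, ih]
    rfl

theorem eq_of_spl {q : List Bool} : ∀ {k : ℕ} {x : List Bool}, spl q = some (k, x) →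
    q = List.replicate k true ++ false :: x := by
  induction q with
  | nil => intro k x h; cases h
  | cons b r ih =>
    intro k x h
    cases b
    · cases h
      rfl
    · rw [spl, Option.map_eq_some_iff] at h
      obtain ⟨⟨k', x'⟩, h1, h2⟩ := h
      cases h2
      rw [ih h1]
      rfl

/-- the content of the oracle: information and table -/
structure St where
  I : ℕ → List Bool → Bool
  T : List Bool → Option (List Bool)

/-- the value of an entry -/
def ent (y : Option (List Bool)) (b : Bool) (i : ℕ) : Bool :=
  match y with
  | none => false
  | some y => if b then decide (i = y.length) else y.getD i false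

/-- the oracle with a given content -/
def orc (S : St) : List Bool → Bool
  | false :: r => match spl r with
    | some k => S.I k.1 k.2
    | none => false
  | true :: b :: r => match spl r with
    | some k => ent (S.T k.2) b k.1
    | none => false
  | _ => false

theorem orc_inf (S : St) (th : ℕ) (x : List Bool) : orc S (inf th x) = S.I th x := by
  rw [inf, orc, spl_rep]

theorem orc_adr (S : St) (b : Bool) (p : List Bool) (i : ℕ) :
    orc S (adr b p i) = ent (S.T p) b i := by
  rw [adr, orc, spl_rep]

/-- two oracles agree at `q` -/
theorem orc_congr {S S' : St} {q : List Bool}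
    (h1 : ∀ th x, q = inf th x → S.I th x = S'.I th x)
    (h2 : ∀ b p i, q = adr b p i → ent (S.T p) b i = ent (S'.T p) b i) : orc S q = orc S' q := by
  match q with
  | [] => rfl
  | [true] => rfl
  | false :: r =>
    rw [orc, orc]
    cases h : spl r with
    | none => rfl
    | some k => exact h1 k.1 k.2 (by rw [inf, ← eq_of_spl h])
  | true :: b :: r =>
    rw [orc, orc]
    cases h : spl r with
    | none => rfl
    | some k => exact h2 b k.2 k.1 (by rw [adr, ← eq_of_spl h])

theorem inf_length (th : ℕ) (x : List Bool) : (inf th x).length = th + x.length + 2 := by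
  rw [inf, List.length_cons, List.length_append, List.length_replicate, List.length_cons]
  omega

theorem adr_length (b : Bool) (p : List Bool) (i : ℕ) : (adr b p i).length = i + p.length + 3 := by
  rw [adr, List.length_cons, List.length_cons, List.length_append, List.length_replicate,
    List.length_cons]
  omega

theorem inf_inj {th th' : ℕ} {x x' : List Bool} (h : inf th x = inf th' x') : th = th' ∧ x = x' := by
  have h1 := congrArg List.tail h
  rw [inf, inf, List.tail_cons, List.tail_cons] at h1
  have h2 := congrArg spl h1
  rw [spl_rep, spl_rep] at h2
  cases h2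
  exact ⟨rfl, rfl⟩

theorem adr_inj {b b' : Bool} {p p' : List Bool} {i i' : ℕ} (h : adr b p i = adr b' p' i') :
    b = b' ∧ p = p' ∧ i = i' := by
  rw [adr, adr, List.cons.injEq, List.cons.injEq] at h
  have h2 := congrArg spl h.2.2
  rw [spl_rep, spl_rep] at h2
  cases h2
  exact ⟨h.2.1, rfl, rfl⟩

theorem inf_ne_adr {th : ℕ} {x : List Bool} {b : Bool} {p : List Bool} {i : ℕ} :
    inf th x ≠ adr b p i := by
  intro h
  rw [inf, adr] at h
  cases h

variable (M : OM)

/-- the budget of the program `d` at stage `s` -/
def bud (s : ℕ) (d : List Bool) : ℕ := 2 ^ (s - d.length) - 1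

/-- the queries asked at stage `s` -/
def Asked (s : ℕ) (S : St) (q : List Bool) : Prop :=
  ∃ d, q ∈ (tr M (orc S) (bud s d) (M.init d)).1

/-- the strings printed at stage `s` -/
def Printed (s : ℕ) (S : St) (x : List Bool) : Prop :=
  ∃ d, (tr M (orc S) (bud s d) (M.init d)).2 = some x

/-- the strings which must be put into the table at stage `s` -/
def Forced (s : ℕ) (S : St) (x : List Bool) : Prop :=
  s < x.length ∧ Asked M s S (inf (s + 3 + kap x.length) x)

/-- the entries which are read at stage `s` -/
def Touched (s : ℕ) (S : St) (p : List Bool) : Prop := ∃ b i, Asked M s S (adr b p i)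

/-- an injective map of the strings in question into the entries which are not read -/
def Good (s : ℕ) (S : St) (f : List Bool → List Bool) : Prop :=
  (∀ x, Forced M s S x → (f x).length = s ∧ ¬ Touched M s S (f x)) ∧
    ∀ x y, Forced M s S x → Forced M s S y → f x = f y → x = y

open Classical in
/-- a good map -/
noncomputable def emb (s : ℕ) (S : St) : List Bool → List Bool :=
  if h : ∃ f, Good M s S f then h.choose else fun _ => []

open Classical in
/-- the next oracle -/
noncomputable def nxt (s : ℕ) (S : St) : St where
  I th x := if th = s + 3 + kap x.length ∧ s < x.length then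
    decide (Printed M s S x ∨ Forced M s S x ∨ S.I (th - 1) x = true) else S.I th x
  T p := if p.length = s then
    (if h : ∃ x, Forced M s S x ∧ emb M s S x = p then some h.choose else none) else S.T p

/-- the oracles `B_s` -/
noncomputable def st : ℕ → St
  | 0 => ⟨fun th x => decide (3 + kap x.length ≤ th), fun _ => none⟩
  | s + 1 => nxt M s (st s)

/-- the content of the final oracle -/
noncomputable def fin : St := ⟨fun th x => (st M (th + 1)).I th x, fun p => (st M (p.length + 1)).T p⟩

theorem st_I_pending (s th : ℕ) (x : List Bool) (h : s + 3 + kap x.length ≤ th) :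
    (st M s).I th x = true := by
  induction s with
  | zero =>
    rw [st]
    exact decide_eq_true (by omega)
  | succ s ih =>
    rw [st, nxt]
    simp only
    rw [if_neg (by omega)]
    exact ih (by omega)

theorem st_T_pending (s : ℕ) (p : List Bool) (h : s ≤ p.length) : (st M s).T p = none := by
  induction s with
  | zero => rfl
  | succ s ih =>
    rw [st, nxt]
    simp only
    rw [if_neg (by omega)]
    exact ih (by omega)

theorem st_I_succ (s th : ℕ) (x : List Bool) (h : th < s + 3) : (st M (s + 1)).I th x =
    (st M s).I th x := by
  rw [st, nxt]
  simp only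
  rw [if_neg (by omega)]

theorem st_T_succ (s : ℕ) (p : List Bool) (h : p.length < s) : (st M (s + 1)).T p =
    (st M s).T p := by
  rw [st, nxt]
  simp only
  rw [if_neg (by omega)]

theorem st_I_fin (s th : ℕ) (x : List Bool) (h : th < s) : (st M s).I th x = (fin M).I th x := by
  induction s with
  | zero => omega
  | succ s ih =>
    rcases Nat.lt_or_ge th s with h1 | h1
    · rw [st_I_succ M s th x (by omega)]
      exact ih h1
    · have : th = s := by omega
      subst this
      rfl

theorem st_T_fin (s : ℕ) (p : List Bool) (h : p.length < s) : (st M s).T p = (fin M).T p := by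
  induction s with
  | zero => omega
  | succ s ih =>
    rcases Nat.lt_or_ge p.length s with h1 | h1
    · rw [st_T_succ M s p h1]
      exact ih h1
    · have : p.length = s := by omega
      subst this
      rfl

/-- the final oracle agrees with `B_s` on the short strings -/
theorem orc_fin (s : ℕ) (q : List Bool) (h : q.length ≤ s) : orc (fin M) q = orc (st M s) q := by
  apply orc_congr
  · rintro th x rfl
    rw [inf_length] at h
    rw [st_I_fin M s th x (by omega)]
  · rintro b p i rfl
    rw [adr_length] at h
    rw [st_T_fin M s p (by omega)]

end Pool.Agent.H62.KO
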