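import Pool.Agent.H62.KO.Cnt

/-!
# Stability of the runs, and the information in the final oracle
-/

set_option autoImplicit false

namespace Pool.Agent.H62.KO

variable (M : OM)

theorem step_agree (s : ℕ) (q : List Bool) (h : Asked M s (st M s) q) :
    orc (st M (s + 1)) q = orc (st M s) q := by
  classical
  apply orc_congr
  · rintro th x rfl
    rw [st, nxt]
    simp only
    split_ifs with h1
    · rw [st_I_pending M s th x (by omega)]
      have h2 : Forced M s (st M s) x := ⟨h1.2, by rw [← h1.1]; exact h⟩
      exact decide_eq_true (Or.inr (Or.inl h2))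
    · rfl
  · rintro b p i rfl
    rw [st, nxt]
    simp only
    split_ifs with h1 h2
    · obtain ⟨x, hx, hxp⟩ := h2
      exact absurd ⟨b, i, hxp ▸ h⟩ ((good_emb M s (st M s)).1 x hx).2
    · rw [st_T_pending M s p h1.ge]
    · rfl

theorem bud_mono {s s' : ℕ} (h : s ≤ s') (d : List Bool) : bud s d ≤ bud s' d :=
  Nat.sub_le_sub_right (Nat.pow_le_pow_right (by decide) (Nat.sub_le_sub_right h _)) 1

/-- the runs of stage `s` do not change any more -/
theorem stab (s s' : ℕ) (h : s ≤ s') (d : List Bool) :
    tr M (orc (st M s')) (bud s d) (M.init d) = tr M (orc (st M s)) (bud s d) (M.init d) := by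
  induction s' with
  | zero =>
    have : s = 0 := by omega
    rw [this]
  | succ s' ih =>
    rcases Nat.lt_or_ge s' s with h1 | h1
    · have : s = s' + 1 := by omega
      rw [this]
    · rw [← ih h1]
      apply tr_agree
      intro q hq
      exact step_agree M s' q ⟨d, (tr_mono _ _ _ (bud_mono h1 d)).1 q hq⟩

theorem stab_fin (s : ℕ) (d : List Bool) :
    tr M (orc (fin M)) (bud s d) (M.init d) = tr M (orc (st M s)) (bud s d) (M.init d) := by
  rw [← stab M s (max s (bud s d)) (le_max_left _ _) d]
  apply tr_agree
  intro q hq
  apply orc_fin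
  have := mem_tr_length hq
  have h2 := le_max_right s (bud s d)
  omega

/-- the strings printed by runs of power less than `2 ^ s` with the final oracle -/
theorem printed_iff (s : ℕ) (x : List Bool) : Printed M s (st M s) x ↔
    ∃ (d : List Bool) (t : ℕ), Run M (orc (fin M)) (M.init d) t x ∧ 2 ^ d.length * t < 2 ^ s := by
  constructor
  · rintro ⟨d, hd⟩
    rw [← stab_fin, ← run_iff] at hd
    refine ⟨d, _, hd, ?_⟩
    have h1 := hd.pos
    have h2 : d.length < s := by
      by_contra hc
      rw [bud, Nat.sub_eq_zero_of_le (not_lt.1 hc)] at h1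
      omega
    have h3 : 2 ^ s = 2 ^ d.length * 2 ^ (s - d.length) := by
      rw [← pow_add, Nat.add_sub_of_le h2.le]
    rw [h3]
    exact Nat.mul_lt_mul_of_pos_left (Nat.sub_lt (Nat.two_pow_pos _) one_pos) (Nat.two_pow_pos _)
  · rintro ⟨d, t, hr, hlt⟩
    have h1 := hr.pos
    have h2 : d.length < s := by
      by_contra hc
      have h3 : 2 ^ s ≤ 2 ^ d.length := Nat.pow_le_pow_right (by decide) (not_lt.1 hc)
      have h4 : 2 ^ d.length * 1 ≤ 2 ^ d.length * t := Nat.mul_le_mul_left _ (by omega)
      omega
    have h3 : 2 ^ s = 2 ^ d.length * 2 ^ (s - d.length) := by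
      rw [← pow_add, Nat.add_sub_of_le h2.le]
    rw [h3] at hlt
    have h4 := Nat.lt_of_mul_lt_mul_left hlt
    refine ⟨d, ?_⟩
    rw [← stab_fin, ← run_iff]
    exact hr.mono (Nat.le_sub_one_of_lt h4)

/-- the entry `p` of the final table contains `x` -/
theorem fin_T (p x : List Bool) : (fin M).T p = some x ↔
    Forced M p.length (st M p.length) x ∧ emb M p.length (st M p.length) x = p := by
  classical
  change (st M (p.length + 1)).T p = some x ↔ _
  rw [st, nxt]
  simp only [if_true]
  constructor
  · intro h
    split_ifs at h with h1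
    have h2 := h1.choose_spec
    rw [Option.some.injEq] at h
    rwa [h] at h2
  · intro h
    have h1 : ∃ x, Forced M p.length (st M p.length) x ∧ emb M p.length (st M p.length) x = p :=
      ⟨x, h⟩
    rw [dif_pos h1, Option.some.injEq]
    exact (good_emb M _ _).2 _ _ h1.choose_spec.1 h.1 (h1.choose_spec.2.trans h.2.symm)

/-- the information at small levels -/
theorem fin_I_low (th : ℕ) (x : List Bool) (h : th < 3 + kap x.length) : (fin M).I th x = false := by
  have h1 : ∀ s, (st M s).I th x = false := by
    intro s
    induction s with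
    | zero =>
      rw [st]
      exact decide_eq_false (by omega)
    | succ s ih =>
      rw [st, nxt]
      simp only
      rw [if_neg (by omega)]
      exact ih
  exact h1 (th + 1)

theorem st_I_late (s th : ℕ) (x : List Bool) (h : th < s + 3 + kap x.length) :
    (st M s).I th x = (fin M).I th x := by
  rcases Nat.lt_or_ge th s with h1 | h1
  · exact st_I_fin M s th x h1
  · change _ = (st M (th + 1)).I th x
    obtain ⟨k, hk⟩ := Nat.exists_eq_add_of_le (show s ≤ th + 1 by omega)
    rw [hk]
    clear hk h1
    induction k with
    | zero => rfl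
    | succ k ih =>
      rw [ih]
      change _ = (st M (s + k + 1)).I th x
      rw [st, nxt]
      simp only
      rw [if_neg (by omega)]

/-- the information at high levels -/
theorem fin_I_high (th : ℕ) (x : List Bool) (h : x.length + 3 + kap x.length ≤ th) :
    (fin M).I th x = true := by
  have h1 : ∀ s, (st M s).I th x = true := by
    intro s
    induction s with
    | zero =>
      rw [st]
      exact decide_eq_true (by omega)
    | succ s ih =>
      rw [st, nxt]
      simp only
      rw [if_neg (by omega)]
      exact ih
  exact h1 (th + 1)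

theorem fin_I (j : ℕ) (x : List Bool) (h : j < x.length) :
    (fin M).I (j + 3 + kap x.length) x = true ↔ (Printed M j (st M j) x ∨ Forced M j (st M j) x ∨
      (fin M).I (j + 2 + kap x.length) x = true) := by
  classical
  rw [← st_I_late M (j + 1) (j + 3 + kap x.length) x (by omega), st, nxt]
  simp only
  rw [if_pos ⟨trivial, h⟩, decide_eq_true_iff]
  have e : j + 3 + kap x.length - 1 = j + 2 + kap x.length := by omega
  rw [e, st_I_late M j (j + 2 + kap x.length) x (by omega)]

end Pool.Agent.H62.KO
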