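import Pool.Agent.H62.KO.Defs

/-!
# Traces of oracle machines
-/

set_option autoImplicit false

namespace Pool.Agent.H62.KO

/-- the queries and the output within `t` steps -/
def tr (M : OM) (A : List Bool → Bool) (t : ℕ) (s : M.σ) : List (List Bool) × Option (List Bool) :=
  match M.act s with
  | .out x => ([], if x.length + 1 ≤ t then some x else none)
  | .go s' => if _h : 1 ≤ t then tr M A (t - 1) s' else ([], none)
  | .ask q f => if _h : q.length + 1 ≤ t then
      (q :: (tr M A (t - (q.length + 1)) (f (A q))).1, (tr M A (t - (q.length + 1)) (f (A q))).2)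
      else ([], none)
termination_by t
decreasing_by all_goals omega

variable {M : OM} {A B : List Bool → Bool}

theorem tr_out {s : M.σ} {x : List Bool} (h : M.act s = .out x) (t : ℕ) :
    tr M A t s = ([], if x.length + 1 ≤ t then some x else none) := by
  rw [tr]
  simp only [h]

theorem tr_go {s s' : M.σ} (h : M.act s = .go s') (t : ℕ) :
    tr M A t s = if 1 ≤ t then tr M A (t - 1) s' else ([], none) := by
  rw [tr]
  simp only [h]
  split_ifs <;> rfl

theorem tr_ask {s : M.σ} {q : List Bool} {f : Bool → M.σ} (h : M.act s = .ask q f) (t : ℕ) :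
    tr M A t s = if q.length + 1 ≤ t then
      (q :: (tr M A (t - (q.length + 1)) (f (A q))).1, (tr M A (t - (q.length + 1)) (f (A q))).2)
      else ([], none) := by
  rw [tr]
  simp only [h]
  split_ifs <;> rfl

theorem tr_of_run {s : M.σ} {t : ℕ} {x : List Bool} (h : Run M A s t x) :
    (tr M A t s).2 = some x := by
  induction h with
  | out s t x h1 h2 => rw [tr_out h1, if_pos h2]
  | go s s' t x h1 _ ih => rw [tr_go h1, if_pos (by omega), Nat.add_sub_cancel, ih]
  | ask s q f t x h1 _ ih => rw [tr_ask h1, if_pos (by omega), Nat.add_sub_cancel]; exact ih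

theorem run_of_tr (t : ℕ) : ∀ (s : M.σ) (x : List Bool), (tr M A t s).2 = some x →
    Run M A s t x := by
  induction t using Nat.strong_induction_on with
  | _ t ih =>
    intro s x h
    cases hs : M.act s with
    | out y =>
      rw [tr_out hs] at h
      simp only at h
      split_ifs at h with h1
      · cases h
        exact Run.out s t x hs h1
    | go s' =>
      rw [tr_go hs] at h
      split_ifs at h with h1
      · have h2 := ih (t - 1) (by omega) s' x h
        have h3 := Run.go s s' (t - 1) x hs h2
        rwa [Nat.sub_add_cancel h1] at h3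
    | ask q f =>
      rw [tr_ask hs] at h
      split_ifs at h with h1
      · have h2 := ih (t - (q.length + 1)) (by omega) (f (A q)) x h
        have h3 := Run.ask s q f (t - (q.length + 1)) x hs h2
        rwa [Nat.sub_add_cancel h1] at h3

theorem run_iff {s : M.σ} {t : ℕ} {x : List Bool} : Run M A s t x ↔ (tr M A t s).2 = some x :=
  ⟨tr_of_run, run_of_tr t s x⟩

theorem tr_cost (t : ℕ) : ∀ s : M.σ, ((tr M A t s).1.map fun q => q.length + 1).sum ≤ t := by
  induction t using Nat.strong_induction_on with
  | _ t ih =>
    intro s
    cases hs : M.act s with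
    | out y => rw [tr_out hs]; simp
    | go s' =>
      rw [tr_go hs]
      split_ifs with h1
      · have := ih (t - 1) (by omega) s'
        omega
      · simp
    | ask q f =>
      rw [tr_ask hs]
      split_ifs with h1
      · have := ih (t - (q.length + 1)) (by omega) (f (A q))
        simp only [List.map_cons, List.sum_cons]
        omega
      · simp

theorem tr_agree (t : ℕ) : ∀ s : M.σ, (∀ q ∈ (tr M B t s).1, A q = B q) →
    tr M A t s = tr M B t s := by
  induction t using Nat.strong_induction_on with
  | _ t ih =>
    intro s h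
    cases hs : M.act s with
    | out y => rw [tr_out hs, tr_out hs]
    | go s' =>
      rw [tr_go hs] at h
      rw [tr_go hs, tr_go hs]
      split_ifs at h ⊢ with h1
      · exact ih (t - 1) (by omega) s' h
      · rfl
    | ask q f =>
      rw [tr_ask hs] at h
      rw [tr_ask hs, tr_ask hs]
      split_ifs at h ⊢ with h1
      · have hq : A q = B q := h q (by simp)
        have h2 := ih (t - (q.length + 1)) (by omega) (f (B q)) fun q' hq' => h q' (by simp [hq'])
        rw [hq, h2]
      · rfl

theorem tr_mono (t : ℕ) : ∀ (t' : ℕ) (s : M.σ), t ≤ t' → (∀ q ∈ (tr M A t s).1,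
    q ∈ (tr M A t' s).1) ∧ ∀ x, (tr M A t s).2 = some x → (tr M A t' s).2 = some x := by
  induction t using Nat.strong_induction_on with
  | _ t ih =>
    intro t' s htt
    cases hs : M.act s with
    | out y =>
      rw [tr_out hs, tr_out hs]
      refine ⟨fun q hq => hq, fun x hx => ?_⟩
      simp only at hx ⊢
      split_ifs at hx with h1
      rw [if_pos (h1.trans htt)]
      exact hx
    | go s' =>
      rw [tr_go hs, tr_go hs]
      split_ifs with h1 h2 h2
      · exact ih (t - 1) (by omega) (t' - 1) s' (by omega)
      · omega
      · exact ⟨fun q hq => by simp at hq, fun x hx => by simp at hx⟩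
      · exact ⟨fun q hq => hq, fun x hx => hx⟩
    | ask q f =>
      rw [tr_ask hs, tr_ask hs]
      split_ifs with h1 h2 h2
      · have h3 := ih (t - (q.length + 1)) (by omega) (t' - (q.length + 1)) (f (A q)) (by omega)
        refine ⟨fun q' hq' => ?_, h3.2⟩
        simp only [List.mem_cons] at hq' ⊢
        exact hq'.imp_right (h3.1 q')
      · omega
      · exact ⟨fun q hq => by simp at hq, fun x hx => by simp at hx⟩
      · exact ⟨fun q hq => hq, fun x hx => hx⟩

theorem Run.mono {s : M.σ} {t t' : ℕ} {x : List Bool} (h : Run M A s t x) (htt : t ≤ t') :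
    Run M A s t' x :=
  run_iff.2 ((tr_mono t t' s htt).2 x (run_iff.1 h))

theorem Run.pos {s : M.σ} {t : ℕ} {x : List Bool} (h : Run M A s t x) : x.length + 1 ≤ t := by
  induction h with
  | out s t x h1 h2 => exact h2
  | go s s' t x h1 _ ih => omega
  | ask s q f t x h1 _ ih => omega

theorem mem_tr_length {t : ℕ} {s : M.σ} {q : List Bool} (h : q ∈ (tr M A t s).1) :
    q.length + 1 ≤ t := by
  have h1 : q.length + 1 ∈ (tr M A t s).1.map fun q => q.length + 1 :=
    List.mem_map.2 ⟨q, h, rfl⟩
  exact (List.single_le_sum (fun _ _ => Nat.zero_le _) _ h1).trans (tr_cost t s)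

end Pool.Agent.H62.KO
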